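import Pool.Agent.W307.RS.Stm
import Pool.Agent.W135.RT.Par6

/-!
# Parametrisation of the curves with a subgroup `Z/2 x Z/6` ordered by the minimal discriminant
-/

set_option autoImplicit false

namespace Pool.Agent.W806.RS

open Pool.Agent.W307.RT Pool.Agent.W307.RS Pool.Agent.W262.RK Pool.Agent.W135.RT

theorem three_s2 {A B u v : ℤ} {s : ℚ} (hR : R6 A B u v s) : (1 : ℚ) ≤ 3 * s ^ 2 := by
  obtain ⟨x, y, hxy⟩ := bez hR.cop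
  obtain ⟨i, hi⟩ := hR.im
  obtain ⟨j, hj⟩ := hR.jn
  have h1 : 3 * s ^ 2 = ((x * i + y * j : ℤ) : ℚ) := by
    push_cast
    rw [← hi, ← hj]
    have : ((x * M6 u v + y * N6 u v : ℤ) : ℚ) = 3 := by rw [hxy]; norm_num
    push_cast at this
    linear_combination -s ^ 2 * this
  have hs2 : 0 < s ^ 2 := by have := hR.s0; positivity
  rw [h1]
  have h3 : (0 : ℚ) < ((x * i + y * j : ℤ) : ℚ) := by rw [← h1]; linarith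
  have h4 : (0 : ℤ) < x * i + y * j := by exact_mod_cast h3
  exact_mod_cast h4

theorem disc {A B u v : ℤ} {s : ℚ} (hR : R6 A B u v s) :
    4 * (A : ℚ) ^ 3 + 27 * (B : ℚ) ^ 2 =
      -(s ^ 12 * ((M6 u v : ℚ) * N6 u v * ((M6 u v : ℚ) - N6 u v)) ^ 2) := by
  have e1 : (A : ℚ) = -s ^ 4 * ((M6 u v : ℚ) ^ 2 - M6 u v * N6 u v + (N6 u v : ℚ) ^ 2) / 3 := by
    rw [← hR.ea]; ring
  have e2 : (B : ℚ) = s ^ 6 * (((M6 u v : ℚ) + N6 u v) * (2 * M6 u v - N6 u v) *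
    (M6 u v - 2 * N6 u v)) / 27 := by
    rw [← hR.eb]; ring
  rw [e1, e2]
  ring

theorem key {A B u v : ℤ} {s : ℚ} (hR : R6 A B u v s) :
    (M6 u v * N6 u v * (M6 u v - N6 u v)).natAbs ^ 2 ≤
      3 ^ 6 * (4 * A ^ 3 + 27 * B ^ 2).natAbs := by
  have h1 := three_s2 hR
  have h2 : (1 : ℚ) ≤ 3 ^ 6 * s ^ 12 := by
    calc (1 : ℚ) = 1 ^ 6 := by norm_num
      _ ≤ (3 * s ^ 2) ^ 6 := pow_le_pow_left₀ (by norm_num) h1 6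
      _ = 3 ^ 6 * s ^ 12 := by ring
  have h3 := disc hR
  set X : ℤ := M6 u v * N6 u v * (M6 u v - N6 u v) with hX
  have hXq : (X : ℚ) = (M6 u v : ℚ) * N6 u v * ((M6 u v : ℚ) - N6 u v) := by
    rw [hX]; push_cast; ring
  rw [← hXq] at h3
  have h4 : (X : ℚ) ^ 2 ≤ 3 ^ 6 * |((4 * A ^ 3 + 27 * B ^ 2 : ℤ) : ℚ)| := by
    have h5 : ((4 * A ^ 3 + 27 * B ^ 2 : ℤ) : ℚ) = -(s ^ 12 * (X : ℚ) ^ 2) := by
      rw [← h3]; push_cast; ring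
    rw [h5, abs_neg, abs_of_nonneg (by positivity)]
    calc (X : ℚ) ^ 2 = 1 * (X : ℚ) ^ 2 := by ring
      _ ≤ (3 ^ 6 * s ^ 12) * (X : ℚ) ^ 2 := mul_le_mul_of_nonneg_right h2 (by positivity)
      _ = 3 ^ 6 * (s ^ 12 * (X : ℚ) ^ 2) := by ring
  have h6 : X ^ 2 ≤ 3 ^ 6 * |4 * A ^ 3 + 27 * B ^ 2| := by exact_mod_cast h4
  zify
  rw [sq_abs]
  exact h6

theorem FF_specD {c : ℤ × ℤ} {Z : ℕ} (hc : c ∈ DvS 6 Z) :
    ∃ s : ℚ, R6 c.1 c.2 (FF c).1 (FF c).2 s := by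
  obtain ⟨hD, _, hT, _⟩ := hc
  have h : ∃ (w : ℤ × ℤ) (s : ℚ), R6 c.1 c.2 w.1 w.2 s := by
    obtain ⟨u, v, s, hR⟩ := exR hD hT
    exact ⟨(u, v), s, hR⟩
  unfold FF
  rw [dif_pos h]
  exact h.choose_spec

theorem pard6_of (h : Pool.Agent.W307.RT.ISO) (h2 : Pool.Agent.W307.RS.MDL) :
    Pool.Agent.W307.RS.PARD 6 Pool.Agent.W307.RT.M6 Pool.Agent.W307.RT.N6 := by
  refine ⟨3 ^ 6 * 6 ^ 12, FF, fun Z => ⟨?_, ?_⟩⟩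
  · intro c hc c' hc' hcc
    obtain ⟨s, hR⟩ := FF_specD hc
    obtain ⟨s', hR'⟩ := FF_specD hc'
    rw [← hcc] at hR'
    obtain ⟨h1, h2⟩ := inj hR hR' hc.2.1 hc'.2.1
    exact Prod.ext h1 h2
  · intro c hc
    obtain ⟨s, hR⟩ := FF_specD hc
    refine ⟨hR.cop, hR.m0, hR.n0, hR.mn, ?_, fin_eq h hR⟩
    obtain ⟨hD, hmin, -, hZ⟩ := hc
    obtain ⟨hm, -⟩ := h2 c.1 c.2 hD hmin
    have h3 := key hR
    rw [Int.natAbs_mul] at hm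
    have h4 : (4 * c.1 ^ 3 + 27 * c.2 ^ 2).natAbs ≤ 6 ^ 12 * Z := by
      have h5 : 6 ^ 12 * mD (Sh c.1 c.2) ≤ 6 ^ 12 * Z := Nat.mul_le_mul_left _ hZ
      have h6 : (16 : ℤ).natAbs = 16 := rfl
      rw [h6] at hm
      omega
    calc _ ≤ 3 ^ 6 * (4 * c.1 ^ 3 + 27 * c.2 ^ 2).natAbs := h3
      _ ≤ 3 ^ 6 * (6 ^ 12 * Z) := Nat.mul_le_mul_left _ h4
      _ = 3 ^ 6 * 6 ^ 12 * Z := by ring

end Pool.Agent.W806.RS
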